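import Pool.Agent.helper91.RB.Spec4

/-! # Project rb (MP_24e2e7_nt), row MDT -/

set_option autoImplicit false

namespace Pool.Agent.RB

open Module
open scoped Classical

section

variable {G : Type} [CommGroup G] [Finite G]

theorem MDT_ev [Fintype G] (ψ : G →* ℂˣ) (y : MonoidAlgebra ℂ G) :
    evC ψ y = ∑ σ : G, y.coeff σ * (ψ σ : ℂ) := by
  unfold evC
  show (MonoidAlgebra.lift ℂ ℂ G ((Units.coeHom ℂ).comp ψ)) y = _
  rw [MonoidAlgebra.lift_apply, Finsupp.sum_fintype _ _ (fun i => by simp)]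
  rfl

theorem MDT_single (ψ : G →* ℂˣ) (σ : G) (a : ℂ) :
    evC ψ (MonoidAlgebra.single σ a) = a * (ψ σ : ℂ) := by
  unfold evC
  show (MonoidAlgebra.lift ℂ ℂ G ((Units.coeHom ℂ).comp ψ)) (MonoidAlgebra.single σ a) = _
  rw [MonoidAlgebra.lift_single]
  rfl

theorem MDT_smul (ψ : G →* ℂˣ) (a : ℂ) (y : MonoidAlgebra ℂ G) :
    evC ψ (a • y) = a * evC ψ y := by
  unfold evC
  show (MonoidAlgebra.lift ℂ ℂ G ((Units.coeHom ℂ).comp ψ)) (a • y) =
    a * (MonoidAlgebra.lift ℂ ℂ G ((Units.coeHom ℂ).comp ψ)) y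
  rw [map_smul, smul_eq_mul]

theorem MDT_sum_char (g : G) (hg : g ≠ 1) : ∑ ψ : G →* ℂˣ, ((ψ g : ℂˣ) : ℂ) = 0 := by
  obtain ⟨φ, hφ⟩ := CommGroup.exists_apply_ne_one_of_hasEnoughRootsOfUnity G ℂ hg
  have h1 : ∑ ψ : G →* ℂˣ, ((ψ g : ℂˣ) : ℂ) = ∑ ψ : G →* ℂˣ, (((φ * ψ) g : ℂˣ) : ℂ) :=
    (Equiv.sum_comp (Equiv.mulLeft φ) (fun ψ : G →* ℂˣ => ((ψ g : ℂˣ) : ℂ))).symm
  have h2 : ∑ ψ : G →* ℂˣ, (((φ * ψ) g : ℂˣ) : ℂ) = (φ g : ℂ) * ∑ ψ : G →* ℂˣ, ((ψ g : ℂˣ) : ℂ) := by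
    rw [Finset.mul_sum]
    apply Finset.sum_congr rfl
    intro ψ _
    rw [MonoidHom.mul_apply, Units.val_mul]
  rw [h2] at h1
  have h3 : (1 - (φ g : ℂ)) * ∑ ψ : G →* ℂˣ, ((ψ g : ℂˣ) : ℂ) = 0 := by
    rw [sub_mul, one_mul, ← h1, sub_self]
  rcases mul_eq_zero.mp h3 with h4 | h4
  · exfalso
    apply hφ
    apply Units.ext
    rw [Units.val_one]
    exact (sub_eq_zero.mp h4).symm
  · exact h4

theorem MDT_inj (y : MonoidAlgebra ℂ G) (hy : ∀ ψ : G →* ℂˣ, evC ψ y = 0) : y = 0 := by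
  haveI : Fintype G := Fintype.ofFinite G
  have h1 : ∀ σ : G, y.coeff σ = 0 := by
    intro σ
    have h2 : ∑ ψ : G →* ℂˣ, evC ψ y * (((ψ σ)⁻¹ : ℂˣ) : ℂ) =
        y.coeff σ * (Fintype.card (G →* ℂˣ) : ℂ) := by
      have h3 : ∀ ψ : G →* ℂˣ, evC ψ y * (((ψ σ)⁻¹ : ℂˣ) : ℂ) =
          ∑ τ : G, y.coeff τ * (((ψ (τ * σ⁻¹)) : ℂˣ) : ℂ) := by
        intro ψ
        rw [MDT_ev, Finset.sum_mul]
        apply Finset.sum_congr rfl
        intro τ _
        rw [map_mul, map_inv, Units.val_mul]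
        ring
      rw [Finset.sum_congr rfl (fun ψ _ => h3 ψ), Finset.sum_comm]
      rw [Finset.sum_eq_single σ]
      · rw [← Finset.mul_sum]
        congr 1
        rw [mul_inv_cancel]
        simp
      · intro τ _ hτ
        rw [← Finset.mul_sum, MDT_sum_char _ (by
          intro h
          exact hτ (mul_inv_eq_one.mp h)), mul_zero]
      · intro h
        exact absurd (Finset.mem_univ σ) h
    have h3 : ∑ ψ : G →* ℂˣ, evC ψ y * (((ψ σ)⁻¹ : ℂˣ) : ℂ) = 0 := by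
      apply Finset.sum_eq_zero
      intro ψ _
      rw [hy ψ, zero_mul]
    rw [h3] at h2
    have h4 : (Fintype.card (G →* ℂˣ) : ℂ) ≠ 0 := by
      exact_mod_cast Fintype.card_ne_zero
    exact (mul_eq_zero.mp h2.symm).resolve_right h4
  apply MonoidAlgebra.ext
  apply Finsupp.ext
  intro σ
  rw [h1 σ]
  rfl

/-- the eigenvectors -/
noncomputable def MDT_e [Fintype G] (φ : G →* ℂˣ) : MonoidAlgebra ℂ G :=
  ∑ σ : G, MonoidAlgebra.single σ ((((φ σ)⁻¹ : ℂˣ)) : ℂ)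

theorem MDT_e_ev [Fintype G] (φ ψ : G →* ℂˣ) :
    evC ψ (MDT_e φ) = if ψ = φ then (Fintype.card G : ℂ) else 0 := by
  unfold MDT_e
  rw [map_sum]
  have h1 : ∀ σ : G, evC ψ (MonoidAlgebra.single σ ((((φ σ)⁻¹ : ℂˣ)) : ℂ)) =
      ((Units.coeHom ℂ).comp (ψ * φ⁻¹)) σ := by
    intro σ
    rw [MDT_single]
    simp only [MonoidHom.comp_apply, MonoidHom.mul_apply, MonoidHom.inv_apply, Units.coeHom_apply,
      Units.val_mul]
    ring
  rw [Finset.sum_congr rfl (fun σ _ => h1 σ)]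
  by_cases h : ψ = φ
  · rw [if_pos h, h]
    simp
  · rw [if_neg h]
    apply sum_hom_units_eq_zero
    intro h2
    apply h
    ext σ
    have h3 : ((Units.coeHom ℂ).comp (ψ * φ⁻¹)) σ = (1 : G →* ℂ) σ := by rw [h2]
    simp only [MonoidHom.comp_apply, MonoidHom.mul_apply, MonoidHom.inv_apply, Units.coeHom_apply,
      MonoidHom.one_apply] at h3
    have h4 : ψ σ * (φ σ)⁻¹ = 1 := Units.ext h3
    rw [mul_inv_eq_one.mp h4]

theorem MDT_e_mul [Fintype G] (φ : G →* ℂˣ) (b : G) :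
    (MonoidAlgebra.single b 1 : MonoidAlgebra ℂ G) * MDT_e φ = ((φ b : ℂˣ) : ℂ) • MDT_e φ := by
  unfold MDT_e
  rw [Finset.mul_sum, Finset.smul_sum]
  have h1 : ∀ σ : G, (MonoidAlgebra.single b 1 : MonoidAlgebra ℂ G) *
      MonoidAlgebra.single σ ((((φ σ)⁻¹ : ℂˣ)) : ℂ) =
      ((φ b : ℂˣ) : ℂ) • MonoidAlgebra.single (b * σ) ((((φ (b * σ))⁻¹ : ℂˣ)) : ℂ) := by
    intro σ
    rw [MonoidAlgebra.single_mul_single, one_mul, MonoidAlgebra.smul_single, smul_eq_mul]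
    congr 1
    rw [map_mul, mul_inv, Units.val_mul, ← mul_assoc, Units.mul_inv, one_mul]
  rw [Finset.sum_congr rfl (fun σ _ => h1 σ)]
  exact Equiv.sum_comp (Equiv.mulLeft b)
    (fun σ => ((φ b : ℂˣ) : ℂ) • (MonoidAlgebra.single σ ((((φ σ)⁻¹ : ℂˣ)) : ℂ) :
      MonoidAlgebra ℂ G))

theorem MDT_mem (B : Subgroup G) (c : G) (ψ : G →* ℂˣ) (h : ψ ∈ Psi B c) :
    (∀ b ∈ B, ψ b = 1) ∧ ψ c = -1 := by
  unfold Psi at h
  rw [Finset.mem_filter] at h
  exact h.2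

theorem MDT_zero (B : Subgroup G) (c : G) (hc : c * c = 1) (y : MonoidAlgebra ℂ G)
    (hy : y ∈ EC B c) (ψ : G →* ℂˣ) (hψ : ψ ∉ Psi B c) : evC ψ y = 0 := by
  obtain ⟨h1, h2⟩ := hy
  have h3 : ¬ ((∀ b ∈ B, ψ b = 1) ∧ ψ c = -1) := by
    intro h
    apply hψ
    unfold Psi
    rw [Finset.mem_filter]
    exact ⟨Finset.mem_univ _, h⟩
  by_cases hB : ∀ b ∈ B, ψ b = 1
  · have hcc : ψ c * ψ c = 1 := by rw [← map_mul, hc, map_one]
    have hc1 : (ψ c : ℂ) * (ψ c : ℂ) = 1 := by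
      rw [← Units.val_mul, hcc, Units.val_one]
    have hc2 : (ψ c : ℂ) = 1 ∨ (ψ c : ℂ) = -1 := mul_self_eq_one_iff.mp hc1
    rcases hc2 with h | h
    · have h4 := congrArg (evC ψ) h2
      rw [map_mul, MDT_single, map_neg, h, one_mul, one_mul] at h4
      have h5 : (2 : ℂ) * evC ψ y = 0 := by linear_combination h4
      exact (mul_eq_zero.mp h5).resolve_left (by norm_num)
    · exfalso
      apply h3
      refine ⟨hB, ?_⟩
      apply Units.ext
      rw [h, Units.val_neg, Units.val_one]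
  · push Not at hB
    obtain ⟨b, hb, hb1⟩ := hB
    have h4 := congrArg (evC ψ) (h1 b hb)
    rw [map_mul, MDT_single, one_mul] at h4
    have h5 : ((ψ b : ℂ) - 1) * evC ψ y = 0 := by
      rw [sub_mul, h4, one_mul, sub_self]
    rcases mul_eq_zero.mp h5 with h6 | h6
    · exfalso
      apply hb1
      apply Units.ext
      rw [Units.val_one]
      exact sub_eq_zero.mp h6
    · exact h6

/-- the evaluation at all characters in `Psi B c` -/
noncomputable def MDT_L0 (B : Subgroup G) (c : G) : EC B c →ₗ[ℂ] (↥(Psi B c) → ℂ) where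
  toFun y := fun ψ => evC ψ.1 (y : MonoidAlgebra ℂ G)
  map_add' x y := by
    funext ψ
    show evC ψ.1 ((x : MonoidAlgebra ℂ G) + (y : MonoidAlgebra ℂ G)) = _
    rw [map_add]
    rfl
  map_smul' a x := by
    funext ψ
    show evC ψ.1 (a • (x : MonoidAlgebra ℂ G)) = _
    rw [MDT_smul]
    rfl

theorem MDT_L0_bij (B : Subgroup G) (c : G) (hc : c * c = 1) :
    Function.Bijective (MDT_L0 B c) := by
  haveI : Fintype G := Fintype.ofFinite G
  constructor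
  · rw [← LinearMap.ker_eq_bot, LinearMap.ker_eq_bot']
    intro y hy
    apply Subtype.ext
    show (y : MonoidAlgebra ℂ G) = 0
    apply MDT_inj
    intro ψ
    by_cases hψ : ψ ∈ Psi B c
    · exact congrFun hy ⟨ψ, hψ⟩
    · exact MDT_zero B c hc y y.2 ψ hψ
  · intro z
    have hcard : (Fintype.card G : ℂ) ≠ 0 := by exact_mod_cast Fintype.card_ne_zero
    have hmem : ∀ φ : ↥(Psi B c), MDT_e φ.1 ∈ EC B c := by
      intro φ
      obtain ⟨h2, h3⟩ := MDT_mem B c φ.1 φ.2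
      constructor
      · intro b hb
        rw [MDT_e_mul, h2 b hb, Units.val_one, one_smul]
      · rw [MDT_e_mul, h3, Units.val_neg, Units.val_one, neg_one_smul]
    refine ⟨∑ φ : ↥(Psi B c), (z φ / (Fintype.card G : ℂ)) • (⟨MDT_e φ.1, hmem φ⟩ : EC B c), ?_⟩
    funext ψ
    have h1 : MDT_L0 B c (∑ φ : ↥(Psi B c), (z φ / (Fintype.card G : ℂ)) •
        (⟨MDT_e φ.1, hmem φ⟩ : EC B c)) ψ =
        ∑ φ : ↥(Psi B c), (z φ / (Fintype.card G : ℂ)) * evC ψ.1 (MDT_e φ.1) := by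
      rw [map_sum, Finset.sum_apply]
      apply Finset.sum_congr rfl
      intro φ _
      rw [map_smul]
      rfl
    rw [h1, Finset.sum_eq_single ψ]
    · rw [MDT_e_ev, if_pos rfl, div_mul_cancel₀ _ hcard]
    · intro φ _ hφ
      rw [MDT_e_ev, if_neg (fun h => hφ (Subtype.ext h.symm)), mul_zero]
    · intro h
      exact absurd (Finset.mem_univ ψ) h

end

theorem MDT : MDT_stmt := by
  intro G _ _ B c hc r A Φ hΦ
  set L : EC B c ≃ₗ[ℂ] (↥(Psi B c) → ℂ) :=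
    LinearEquiv.ofBijective (MDT_L0 B c) (MDT_L0_bij B c hc) with hL
  have hLap : ∀ (y : EC B c) (ψ : ↥(Psi B c)), L y ψ = evC ψ.1 (y : MonoidAlgebra ℂ G) := by
    intro y ψ
    rfl
  set E : (Fin r → EC B c) ≃ₗ[ℂ] (Fin r × ↥(Psi B c) → ℂ) :=
    (LinearEquiv.piCongrRight (fun _ : Fin r => L)) ≪≫ₗ
      (LinearEquiv.curry ℂ ℂ (Fin r) (↥(Psi B c))).symm with hE
  have hEap : ∀ (y : Fin r → EC B c) (x : Fin r × ↥(Psi B c)),
      E y x = evC x.2.1 ((y x.1 : EC B c) : MonoidAlgebra ℂ G) := by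
    intro y x
    rfl
  set Mx : Matrix (Fin r × ↥(Psi B c)) (Fin r × ↥(Psi B c)) ℂ :=
    Matrix.blockDiagonal (fun ψ : ↥(Psi B c) =>
      (Matrix.of fun i j => evC ψ.1 (A i j) : Matrix (Fin r) (Fin r) ℂ)) with hMx
  have h1 : ∀ y : Fin r → EC B c, E (Φ y) = Matrix.toLin' Mx (E y) := by
    intro y
    funext x
    obtain ⟨i, ψ⟩ := x
    rw [hEap, Matrix.toLin'_apply]
    simp only
    rw [hΦ y i, map_sum]
    show _ = ∑ x : Fin r × ↥(Psi B c), Mx (i, ψ) x * E y x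
    rw [Fintype.sum_prod_type]
    apply Finset.sum_congr rfl
    intro j _
    rw [Finset.sum_eq_single ψ]
    · rw [map_mul, hEap, hMx, Matrix.blockDiagonal_apply_eq]
      rfl
    · intro φ _ hφ
      rw [hMx, Matrix.blockDiagonal_apply_ne _ _ _ (Ne.symm hφ), zero_mul]
    · intro h
      exact absurd (Finset.mem_univ ψ) h
  have h2 : (E : (Fin r → EC B c) →ₗ[ℂ] _) ∘ₗ Φ ∘ₗ (E.symm : _ →ₗ[ℂ] (Fin r → EC B c)) =
      Matrix.toLin' Mx := by
    apply LinearMap.ext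
    intro z
    rw [LinearMap.comp_apply, LinearMap.comp_apply]
    have h3 := h1 (E.symm z)
    rw [LinearEquiv.apply_symm_apply] at h3
    exact h3
  rw [← LinearMap.det_conj Φ E, h2, LinearMap.det_toLin', hMx, Matrix.det_blockDiagonal]
  exact Finset.prod_coe_sort (Psi B c) (fun ψ => Matrix.det (fun i j => evC ψ (A i j)))

end Pool.Agent.RB
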