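import Pool.Agent.helper91.RB.Spec2

/-! # Project rb (MP_24e2e7_nt), row ZPR -/

set_option autoImplicit false

namespace Pool.Agent.RB

open NumberField IsDedekindDomain Module
open scoped nonZeroDivisors Real Classical

theorem ZPR_cpow (N f : ℕ) (s : ℂ) : ((N ^ f : ℕ) : ℂ) ^ (-s) = ((N : ℂ) ^ (-s)) ^ f := by
  rw [Nat.cast_pow, ← Complex.natCast_cpow_natCast_mul, Complex.cpow_nat_mul]

theorem ZPR (hCHV : CHV_stmt) (hLOC : LOC_stmt) (hEUL : EUL_stmt) (hCNV : CNV_stmt) :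
    ZPR_stmt := by
  intro F L _ _ _ _ _ _ s hs
  have hE := (hEUL L s hs).2
  -- grouping by the prime below
  let und : HOS L → HOS F := fun P => P.under (𝓞 F)
  have h1 : HasProd ((fun P : HOS L => (1 - (nm P : ℂ) ^ (-s))⁻¹) ∘ (Equiv.sigmaFiberEquiv und))
      (dedekindZeta L s) := (Equiv.hasProd_iff (Equiv.sigmaFiberEquiv und)).mpr hE
  have h2 : ∀ p : HOS F, HasProd (fun c : {P : HOS L // und P = p} =>
      ((fun P : HOS L => (1 - (nm P : ℂ) ^ (-s))⁻¹) ∘ (Equiv.sigmaFiberEquiv und)) ⟨p, c⟩)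
      (∏ χ : (L ≃ₐ[F] L) →* ℂˣ, (1 - chv χ p * (nm p : ℂ) ^ (-s))⁻¹) := by
    intro p
    obtain ⟨f, g, hf, hg, hcard, hnm, hX⟩ := hLOC F L p
    have hfin : {P : HOS L | P.under (𝓞 F) = p}.Finite := by
      apply Set.finite_of_ncard_pos
      rw [hcard]
      exact hg
    haveI : Fintype {P : HOS L // und P = p} := hfin.fintype
    have h3 : ∀ c : {P : HOS L // und P = p},
        ((fun P : HOS L => (1 - (nm P : ℂ) ^ (-s))⁻¹) ∘ (Equiv.sigmaFiberEquiv und)) ⟨p, c⟩ =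
          (1 - ((nm p : ℂ) ^ (-s)) ^ f)⁻¹ := by
      intro c
      have h4 : (Equiv.sigmaFiberEquiv und) ⟨p, c⟩ = (c : HOS L) := rfl
      simp only [Function.comp_apply]
      rw [h4, hnm c.1 c.2, ZPR_cpow]
    rw [funext h3]
    have h5 : (∏ χ : (L ≃ₐ[F] L) →* ℂˣ, (1 - chv χ p * (nm p : ℂ) ^ (-s))⁻¹) =
        ∏ _c : {P : HOS L // und P = p}, (1 - ((nm p : ℂ) ^ (-s)) ^ f)⁻¹ := by
      rw [Finset.prod_inv_distrib, hX, Finset.prod_const, Finset.card_univ, inv_pow]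
      congr 2
      rw [← hcard]
      rw [← Nat.card_eq_fintype_card]
      rfl
    rw [h5]
    exact hasProd_fintype _
  have h3 : HasProd (fun p : HOS F =>
      ∏ χ : (L ≃ₐ[F] L) →* ℂˣ, (1 - chv χ p * (nm p : ℂ) ^ (-s))⁻¹) (dedekindZeta L s) :=
    HasProd.sigma h1 h2
  have h4 : HasProd (fun p : HOS F =>
      ∏ χ : (L ≃ₐ[F] L) →* ℂˣ, (1 - chv χ p * (nm p : ℂ) ^ (-s))⁻¹)
      (∏ χ : (L ≃ₐ[F] L) →* ℂˣ, LE χ s) := by
    apply hasProd_prod
    intro χ _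
    have h5 : Multipliable (fun p : HOS F => (1 - chv χ p * (nm p : ℂ) ^ (-s))⁻¹) :=
      hCNV F s hs (fun p => chv χ p) (fun p => (hCHV F L p).2.2.2.2.1 χ)
    exact h5.hasProd
  exact h3.unique h4

end Pool.Agent.RB
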